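import Pool.Agent.Q184.Rate.Line

namespace Pool.Agent.Results.MP_bf2d93_gt.DistortionRates

/-- A rate function: a nondecreasing unbounded function from the positive integers to the positive
real numbers which is scaling invariant (the value `f 0` plays no role). -/
structure IsRate (f : ℕ → ℝ) : Prop where
  pos : ∀ n : ℕ, 1 ≤ n → 0 < f n
  mono : ∀ m n : ℕ, 1 ≤ m → m ≤ n → f m ≤ f n
  unbounded : ∀ b : ℝ, ∃ n : ℕ, 1 ≤ n ∧ b < f n
  scaling : ∀ M : ℕ, 1 ≤ M → ∃ c > 0, ∃ C > 0, ∃ N₀ : ℕ, ∀ N : ℕ, N₀ ≤ N →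
    c * f N ≤ f (M * N) ∧ f (M * N) ≤ C * f N

/-- The relation `f ⪯ g`. -/
def Below (f g : ℕ → ℝ) : Prop :=
  ∃ C : ℝ, 1 ≤ C ∧ ∃ M : ℕ, 1 ≤ M ∧ ∃ N₀ : ℕ, ∀ N : ℕ, N₀ ≤ N → f N ≤ C * g (M * N) + C

/-- The relation `f ≃ g`. -/
def Equivalent (f g : ℕ → ℝ) : Prop := Below f g ∧ Below g f

/-- The sequence `(p n)`, `n ∈ I`, of points of the metric space `X` is `f`-distorted. -/
def IsDistorted {X : Type} [MetricSpace X] (I : Set ℤ) (f : ℕ → ℝ) (p : ℤ → X) : Prop :=
  ∃ A > 0, ∃ B > 0, ∃ N₀ : ℕ, 1 ≤ N₀ ∧ ∀ m ∈ I, ∀ n ∈ I, N₀ ≤ (n - m).natAbs →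
    A * f (n - m).natAbs ≤ dist (p n) (p m) ∧ dist (p n) (p m) ≤ B * f (n - m).natAbs

/-- `f` is realizable in `X` with index set `I`. -/
def Realizable (I : Set ℤ) (f : ℕ → ℝ) (X : Type) [MetricSpace X] : Prop :=
  ∃ p : ℤ → X, IsDistorted I f p

/-- The class of `f` belongs to the sequence distortion spectrum of `X` with index set `I`. -/
def InSpectrum (I : Set ℤ) (f : ℕ → ℝ) (X : Type) [MetricSpace X] : Prop :=
  ∃ g : ℕ → ℝ, IsRate g ∧ Equivalent g f ∧ Realizable I g X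

/-- The criterion: at every large scale `N` and for every factor `M` the function `f` grows by a
factor at most `C M`, and at least `c M ^ α`, where `α > 1 / k` (for `k = 1` also `α = 1`). -/
def Criterion (k : ℕ) (f : ℕ → ℝ) : Prop :=
  ∃ α : ℝ, (1 / (k : ℝ) < α ∨ (k = 1 ∧ α = 1)) ∧ ∃ c > 0, ∃ C > 0, ∃ N₀ : ℕ,
    ∀ N : ℕ, N₀ ≤ N → ∀ M : ℕ, 1 ≤ M →
      c * (M : ℝ) ^ α * f N ≤ f (M * N) ∧ f (M * N) ≤ C * M * f N

theorem realizable_iff {k : ℕ} (hk : 1 ≤ k) {I : Set ℤ} (hI : I = Set.Ici 1 ∨ I = Set.univ)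
    {f : ℕ → ℝ} (hf : IsRate f) :
    Realizable I f (EuclideanSpace ℝ (Fin k)) ↔ Criterion k f := by
  have hI' : ∀ m : ℤ, 1 ≤ m → m ∈ I := by
    intro m hm
    rcases hI with h | h <;> rw [h]
    · exact hm
    · trivial
  constructor
  · rintro ⟨p, A, hA, B, hB, N0, hN0, h⟩
    let H := Q184.Rate.mkData hf.pos hf.mono p A B hA hB N0 hN0
      (fun m n hm hn hmn => h m (hI' m hm) n (hI' n hn) hmn)
    rcases Nat.eq_or_lt_of_le hk with h1 | h1
    · subst h1
      obtain ⟨κ, hκ, hp⟩ := H.packing le_rfl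
      refine ⟨1, Or.inr ⟨rfl, rfl⟩, κ, hκ, B / A, by positivity, N0, ?_⟩
      intro N hN M hM
      refine ⟨?_, H.linear hN hM⟩
      have := hp N hN M hM
      simpa using this
    · obtain ⟨α, hα, c, hc, hp⟩ := H.index h1
      refine ⟨α, Or.inl hα, c, hc, B / A, by positivity, N0, ?_⟩
      intro N hN M hM
      exact ⟨hp N hN M hM, H.linear hN hM⟩
  · rintro ⟨α, hα, c, hc, C, hC, N0, h⟩
    have key : ∃ p : ℤ → EuclideanSpace ℝ (Fin k), ∃ A > 0, ∃ B > 0, ∃ N1 ≥ 1, ∀ m n : ℤ,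
        N1 ≤ (n - m).natAbs →
        A * f (n - m).natAbs ≤ dist (p n) (p m) ∧ dist (p n) (p m) ≤ B * f (n - m).natAbs := by
      rcases Nat.eq_or_lt_of_le hk with h1 | h1
      · subst h1
        have hα' : 1 ≤ α := by
          rcases hα with h | h
          · simp at h; exact h.le
          · exact h.2.ge
        exact Q184.Rate.suff_line hf.pos hf.mono hα' hc hC h
      · rcases hα with h2 | h2
        · exact Q184.Rate.suff h1 f hf.pos hf.mono h2 hc h
        · omega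
    obtain ⟨p, A, hA, B, hB, N1, hN1, hp⟩ := key
    exact ⟨p, A, hA, B, hB, N1, hN1, fun m _ n _ hmn => hp m n hmn⟩

/-- for rate functions the relation `⪯` bounds one function by a multiple of the other -/
theorem Below.bound {f g : ℕ → ℝ} (h : Below f g) (hg : IsRate g) :
    ∃ b > 0, ∃ N₁ : ℕ, 1 ≤ N₁ ∧ ∀ N : ℕ, N₁ ≤ N → f N ≤ b * g N := by
  obtain ⟨C, hC, M, hM, N0, h0⟩ := h
  obtain ⟨c', hc', C', hC', N0', h0'⟩ := hg.scaling M hM
  refine ⟨C * C' + C / g 1, ?_, max (max N0 N0') 1, le_max_right _ _, ?_⟩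
  · have := hg.pos 1 le_rfl
    positivity
  · intro N hN
    have e1 : N0 ≤ N := (le_max_left _ _).trans ((le_max_left _ _).trans hN)
    have e2 : N0' ≤ N := (le_max_right _ _).trans ((le_max_left _ _).trans hN)
    have e3 : 1 ≤ N := (le_max_right _ _).trans hN
    have h1 := h0 N e1
    have h2 := (h0' N e2).2
    have h3 := hg.mono 1 N le_rfl e3
    have h4 := hg.pos 1 le_rfl
    have h5 : C ≤ C / g 1 * g N := by
      rw [div_mul_eq_mul_div, le_div_iff₀ h4]
      exact mul_le_mul_of_nonneg_left h3 (by linarith)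
    calc f N ≤ C * g (M * N) + C := h1
      _ ≤ C * (C' * g N) + C / g 1 * g N :=
          add_le_add (mul_le_mul_of_nonneg_left h2 (by linarith)) h5
      _ = (C * C' + C / g 1) * g N := by ring

theorem realizable_of_equivalent {f g : ℕ → ℝ} (hf : IsRate f) (hg : IsRate g)
    (h : Equivalent g f) {I : Set ℤ} {X : Type} [MetricSpace X] (hr : Realizable I g X) :
    Realizable I f X := by
  obtain ⟨b, hb, N1, hN1, h1⟩ := h.1.bound hf
  obtain ⟨b', hb', N2, hN2, h2⟩ := h.2.bound hg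
  obtain ⟨p, A, hA, B, hB, N0, hN0, hp⟩ := hr
  refine ⟨p, A / b', by positivity, B * b, by positivity, max N0 (max N1 N2),
    hN0.trans (le_max_left _ _), ?_⟩
  intro m hm n hn hmn
  have e0 : N0 ≤ (n - m).natAbs := (le_max_left _ _).trans hmn
  have e1 : N1 ≤ (n - m).natAbs := (le_max_left _ _).trans ((le_max_right _ _).trans hmn)
  have e2 : N2 ≤ (n - m).natAbs := (le_max_right _ _).trans ((le_max_right _ _).trans hmn)
  obtain ⟨k1, k2⟩ := hp m hm n hn e0
  constructor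
  · refine le_trans ?_ k1
    rw [div_mul_eq_mul_div, div_le_iff₀ hb']
    have := mul_le_mul_of_nonneg_left (h2 _ e2) hA.le
    linarith
  · refine k2.trans ?_
    rw [mul_assoc]
    exact mul_le_mul_of_nonneg_left (h1 _ e1) hB.le

/-- Complete description of the sequence distortion spectra of the Euclidean spaces. Let `k ≥ 1`,
let the index set `I` be the set of positive integers or the set of all integers, and let `f` be a
rate function. Then `ℝ ^ k` contains an `f`-distorted sequence indexed by `I` (equivalently, the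
class of `f` lies in the spectrum of `ℝ ^ k` for `I`) if and only if `f` satisfies the criterion
`Criterion k f`: there are `α > 1 / k` (or `α = 1` when `k = 1`) and constants `c, C > 0` with
`c M ^ α f N ≤ f (M N) ≤ C M f N` for all large `N` and all `M ≥ 1`. -/
theorem result (k : ℕ) (hk : 1 ≤ k) (I : Set ℤ) (hI : I = Set.Ici 1 ∨ I = Set.univ)
    (f : ℕ → ℝ) (hf : IsRate f) :
    (Realizable I f (EuclideanSpace ℝ (Fin k)) ↔ Criterion k f) ∧
      (InSpectrum I f (EuclideanSpace ℝ (Fin k)) ↔ Criterion k f) := by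
  refine ⟨realizable_iff hk hI hf, ?_⟩
  rw [← realizable_iff hk hI hf]
  constructor
  · rintro ⟨g, hg, hgf, hr⟩
    exact realizable_of_equivalent hf hg hgf hr
  · intro h
    refine ⟨f, hf, ⟨?_, ?_⟩, h⟩
    · exact ⟨1, le_rfl, 1, le_rfl, 0, fun N _ => by rw [one_mul, one_mul]; linarith⟩
    · exact ⟨1, le_rfl, 1, le_rfl, 0, fun N _ => by rw [one_mul, one_mul]; linarith⟩

end Pool.Agent.Results.MP_bf2d93_gt.DistortionRates
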